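import Pool.Agent.R489.HC.Stm

set_option autoImplicit false

namespace Pool.Agent.R880.HC

open Pool.Agent.R489.HB Pool.Agent.R489.HC

variable {V : Type} [DecidableEq V] {G : SimpleGraph V}

theorem rep_eq (P : Pt G) (x : V) :
    rep P x = (if x = P.u then 1 - P.s else 0) + (if x = P.w then P.s else 0) := by
  unfold rep
  rw [Pi.add_apply, Pi.single_apply, Pi.single_apply]

theorem s_bd (P : Pt G) : 0 ≤ P.s ∧ P.s ≤ 1 := by
  rcases P.h with ⟨_, h⟩ | ⟨_, h1, h2⟩
  · rw [h]; exact ⟨le_refl _, zero_le_one⟩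
  · exact ⟨h1, h2⟩

theorem rep_nonneg (P : Pt G) (x : V) : 0 ≤ rep P x := by
  rw [rep_eq]
  have := s_bd P
  split_ifs <;> linarith

theorem L (P : Pt G) (x : V) (h : 0 < rep P x) : P.End x (1 - rep P x) := by
  rw [rep_eq] at h ⊢
  rcases P.h with ⟨h1, h2⟩ | ⟨h1, _, _⟩
  · by_cases hx : x = P.u
    · left
      refine ⟨hx, ?_⟩
      rw [if_pos hx, if_pos (hx.trans h1), h2]
      ring
    · rw [if_neg hx, if_neg (fun h3 => hx (h3.trans h1.symm))] at h
      linarith
  · by_cases hx : x = P.u
    · have hw : x ≠ P.w := fun h3 => h1.ne (hx.symm.trans h3)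
      left
      refine ⟨hx, ?_⟩
      rw [if_pos hx, if_neg hw]
      ring
    · by_cases hw : x = P.w
      · right
        refine ⟨h1.ne, hw, ?_⟩
        rw [if_neg hx, if_pos hw]
        ring
      · rw [if_neg hx, if_neg hw] at h
        linarith

theorem M (P : Pt G) (u w : V) (huw : u ≠ w) (h : rep P u + rep P w = 1) (h0 : 0 < rep P u)
    (h1 : rep P u < 1) : (P.u = u ∧ P.w = w ∧ G.Adj P.u P.w ∧ rep P u = 1 - P.s) ∨
      (P.u = w ∧ P.w = u ∧ G.Adj P.u P.w ∧ rep P u = P.s) := by
  have hw0 : 0 < rep P w := by linarith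
  rw [rep_eq] at h0 h1 hw0 ⊢
  rcases P.h with ⟨h2, h3⟩ | ⟨h2, _, _⟩
  · exfalso
    by_cases hx : u = P.u
    · rw [if_pos hx, if_pos (hx.trans h2), h3] at h1
      linarith
    · rw [if_neg hx, if_neg (fun h4 => hx (h4.trans h2.symm))] at h0
      linarith
  · by_cases hx : u = P.u
    · left
      have hw : u ≠ P.w := fun h3 => h2.ne (hx.symm.trans h3)
      have hwu : w ≠ P.u := fun h4 => huw (hx.trans h4.symm)
      rw [if_neg hwu] at hw0
      by_cases hww : w = P.w
      · refine ⟨hx.symm, hww.symm, h2, ?_⟩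
        rw [if_pos hx, if_neg hw]
        ring
      · rw [if_neg hww] at hw0
        linarith
    · right
      by_cases hw : u = P.w
      · have hww : w ≠ P.w := fun h4 => huw (hw.trans h4.symm)
        rw [if_neg hww] at hw0
        by_cases hwu : w = P.u
        · refine ⟨hwu.symm, hw.symm, h2, ?_⟩
          rw [if_neg hx, if_pos hw]
          ring
        · rw [if_neg hwu] at hw0
          linarith
      · rw [if_neg hx, if_neg hw] at h0
        linarith

theorem REP2 : S_REP2 := by
  intro V _ G P Q r h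
  obtain ⟨l, hl, hr⟩ := h
  rcases hl with ⟨u, w, hA, hp, hq, rfl⟩ | ⟨u, w, k, hp, hq, rfl⟩
  · have pu := rep_nonneg P u
    have pw := rep_nonneg P w
    have qu := rep_nonneg Q u
    have qw := rep_nonneg Q w
    have hab := abs_le.1 hr
    rcases pu.eq_or_lt with pu0 | pu0
    · have hE := L P w (by linarith)
      rcases qw.eq_or_lt with qw0 | qw0
      · exact Or.inr (Or.inr ⟨w, u, _, _, SimpleGraph.Walk.cons hA.symm SimpleGraph.Walk.nil, hE,
          L Q u (by linarith), by
            rw [SimpleGraph.Walk.length_cons, SimpleGraph.Walk.length_nil]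
            push_cast
            linarith⟩)
      · exact Or.inr (Or.inr ⟨w, w, _, _, SimpleGraph.Walk.nil, hE, L Q w qw0, by
          rw [SimpleGraph.Walk.length_nil]
          push_cast
          linarith⟩)
    rcases pw.eq_or_lt with pw0 | pw0
    · have hE := L P u pu0
      rcases qu.eq_or_lt with qu0 | qu0
      · exact Or.inr (Or.inr ⟨u, w, _, _, SimpleGraph.Walk.cons hA SimpleGraph.Walk.nil, hE,
          L Q w (by linarith), by
            rw [SimpleGraph.Walk.length_cons, SimpleGraph.Walk.length_nil]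
            push_cast
            linarith⟩)
      · exact Or.inr (Or.inr ⟨u, u, _, _, SimpleGraph.Walk.nil, hE, L Q u qu0, by
          rw [SimpleGraph.Walk.length_nil]
          push_cast
          linarith⟩)
    rcases qu.eq_or_lt with qu0 | qu0
    · exact Or.inr (Or.inr ⟨w, w, _, _, SimpleGraph.Walk.nil, L P w pw0, L Q w (by linarith), by
        rw [SimpleGraph.Walk.length_nil]
        push_cast
        linarith⟩)
    rcases qw.eq_or_lt with qw0 | qw0
    · exact Or.inr (Or.inr ⟨u, u, _, _, SimpleGraph.Walk.nil, L P u pu0, L Q u qu0, by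
        rw [SimpleGraph.Walk.length_nil]
        push_cast
        linarith⟩)
    have mP := M P u w hA.ne hp pu0 (by linarith)
    have mQ := M Q u w hA.ne hq qu0 (by linarith)
    rcases mP with ⟨p1, p2, pA, p3⟩ | ⟨p1, p2, pA, p3⟩
    · rcases mQ with ⟨q1, q2, qA, q3⟩ | ⟨q1, q2, qA, q3⟩
      · left
        refine ⟨p1.trans q1.symm, p2.trans q2.symm, ?_⟩
        rw [abs_le]
        constructor <;> linarith
      · right; left
        refine ⟨pA, p1.trans q2.symm, p2.trans q1.symm, ?_⟩
        rw [abs_le]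
        constructor <;> linarith
    · rcases mQ with ⟨q1, q2, qA, q3⟩ | ⟨q1, q2, qA, q3⟩
      · right; left
        refine ⟨pA, p1.trans q2.symm, p2.trans q1.symm, ?_⟩
        rw [abs_le]
        constructor <;> linarith
      · left
        refine ⟨p1.trans q1.symm, p2.trans q2.symm, ?_⟩
        rw [abs_le]
        constructor <;> linarith
  · exact Or.inr (Or.inr ⟨u, w, _, _, k, L P u hp, L Q w hq, hr⟩)

end Pool.Agent.R880.HC
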